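import Pool.Agent.helper56.CY.Spec

/-!
# MP_45d809: row FND (planar graphs, the two face classes)
-/

namespace Pool.Agent.CY
open Finset CT

/-- (d). -/
theorem FND_d (hFNA : FNA_stmt) (hPLE : PLE_stmt) (V : Type) [Fintype V] [DecidableEq V]
    (G : SimpleGraph V) (v : V) (h4 : FourRegular G) (h6 : 6 ≤ Fintype.card V)
    (hC : ¬ C2Is (decompletion G v) (ZMod 2) 0) (R : Rotation G)
    (κ : R.Face → Bool) (hκ : R.Proper κ) (x : Bool) : 2 * R.num κ x ≤ Fintype.card V + 2 := by
  rcases Nat.eq_zero_or_pos (R.num κ x) with h0 | h0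
  · omega
  · obtain ⟨C, hE, -⟩ := hPLE V G R κ x hκ
    exact (hFNA V G v h4 h6 hC _ C hE h0).2.2

/-- The number of edges of a 4-regular graph. -/
theorem FND_edges (V : Type) [Fintype V] (G : SimpleGraph V) (h4 : FourRegular G) :
    Nat.card G.edgeSet = 2 * Fintype.card V := by
  classical
  have h := G.sum_degrees_eq_twice_card_edges
  have hd : ∀ u, G.degree u = 4 := by
    intro u
    rw [← h4 u, Nat.card_eq_fintype_card, ← SimpleGraph.card_neighborSet_eq_degree]
    rfl
  rw [Finset.sum_congr rfl (fun u _ => hd u)] at h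
  rw [Finset.sum_const, Finset.card_univ, smul_eq_mul] at h
  have h2 : G.edgeFinset.card = Nat.card G.edgeSet := by
    rw [Nat.card_eq_fintype_card, ← SimpleGraph.edgeFinset_card]
  omega

/-- The two face classes. -/
theorem FND_faces (V : Type) [Fintype V] (G : SimpleGraph V) (R : Rotation G)
    (κ : R.Face → Bool) : Nat.card R.Face = R.num κ true + R.num κ false := by
  classical
  haveI : Finite R.Face := Quotient.finite _
  unfold Rotation.num
  have h := Nat.card_congr (Equiv.sumCompl (fun f : R.Face => κ f = true)).symm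
  rw [Nat.card_sum] at h
  rw [h]
  congr 1
  refine Nat.card_congr (Equiv.subtypeEquivRight ?_)
  intro f
  exact Bool.not_eq_true _ ▸ Iff.rfl

theorem FND (hFNA : FNA_stmt) (hPLE : PLE_stmt) (hPLC : PLC_stmt) : FND_stmt := by
  intro V _ _ G v h4 h6 hC R
  have hd := FND_d hFNA hPLE V G v h4 h6 hC R
  refine ⟨hd, ?_⟩
  intro hcon hsph
  have hE := FND_edges V G h4
  have hF : Nat.card R.Face = Fintype.card V + 2 := by
    unfold Rotation.Spherical at hsph
    rw [hE, Nat.card_eq_fintype_card] at hsph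
    omega
  have key : ∀ κ : R.Face → Bool, R.Proper κ →
      2 * R.num κ true = Fintype.card V + 2 ∧ 2 * R.num κ false = Fintype.card V + 2 := by
    intro κ hκ
    have h1 := hd κ hκ true
    have h2 := hd κ hκ false
    have h3 := FND_faces V G R κ
    rw [hF] at h3
    omega
  obtain ⟨κ, hκ⟩ := hPLC V G R hcon h4 hsph
  refine ⟨?_, ⟨κ, hκ⟩, ?_⟩
  · have h1 := (key κ hκ).1
    rw [Nat.even_iff]
    omega
  · intro κ hκ x
    cases x
    · exact (key κ hκ).2
    · exact (key κ hκ).1

end Pool.Agent.CY
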